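import Pool.Agent.W536.LM.Stm

/-!
# Project LM: order at the special point `1` (part ORDA)
-/

set_option autoImplicit false

open Polynomial W536.LM

namespace Pool.Agent.W412.LM

theorem ord_mul {j k : ℕ} {f g : PowerSeries ℝ} (hf : Ord j f) (hg : Ord k g) :
    Ord (j + k) (f * g) := by
  obtain ⟨u, hu, rfl⟩ := hf
  obtain ⟨v, hv, rfl⟩ := hg
  exact ⟨u * v, hu.mul hv, by ring⟩

theorem ord_unit {f : PowerSeries ℝ} (hf : PowerSeries.constantCoeff f ≠ 0) : Ord 0 f :=
  ⟨f, PowerSeries.isUnit_iff_constantCoeff.2 (isUnit_iff_ne_zero.2 hf), by rw [pow_zero, one_mul]⟩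

theorem ord_one {f : PowerSeries ℝ} (h0 : PowerSeries.constantCoeff f = 0)
    (h1 : PowerSeries.coeff 1 f ≠ 0) : Ord 1 f := by
  obtain ⟨g, rfl⟩ := PowerSeries.X_dvd_iff.2 h0
  refine ⟨g, ?_, by rw [pow_one]⟩
  rw [PowerSeries.isUnit_iff_constantCoeff, isUnit_iff_ne_zero]
  have h2 := PowerSeries.coeff_succ_X_mul 0 g
  rw [zero_add] at h2
  rw [h2, PowerSeries.coeff_zero_eq_constantCoeff_apply] at h1
  exact h1

theorem ord_X {u : PowerSeries ℝ} (hu : PowerSeries.constantCoeff u ≠ 0) :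
    Ord 1 (PowerSeries.X * u) :=
  ⟨u, PowerSeries.isUnit_iff_constantCoeff.2 (isUnit_iff_ne_zero.2 hu), by rw [pow_one]⟩

theorem ord_pow {f : PowerSeries ℝ} (hf : PowerSeries.constantCoeff f ≠ 0) (N : ℕ) :
    Ord 0 (f ^ N) := by
  apply ord_unit
  rw [map_pow]
  exact pow_ne_zero _ hf

theorem ps_const (P : Par ℝ) :
    P.ps.map (PowerSeries.constantCoeff : PowerSeries ℝ →+* ℝ) = P := by
  rcases P with ⟨L, m, e⟩
  simp [Par.ps, Par.map]

theorem cst (hN : S_NAT) (n : ℕ) (P : Par ℝ) (w w0 : PowerSeries ℝ) :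
    PowerSeries.constantCoeff (G n P.ps w w0) =
      G n P (PowerSeries.constantCoeff w) (PowerSeries.constantCoeff w0) := by
  have h := hN n (PowerSeries ℝ) ℝ PowerSeries.constantCoeff P.ps w w0
  rw [ps_const] at h
  exact h

theorem cxG (hN : S_NAT) (n : ℕ) (P : Par ℝ) (w w0 : ℝ) :
    ((G n P w w0 : ℝ) : ℂ) = G n P.cx (w : ℂ) (w0 : ℂ) :=
  hN n ℝ ℂ Complex.ofRealHom P w w0

theorem claim (hN : S_NAT) (hF : S_FAC) (h0 : S_STEP0) (h1 : S_STEP1) (hE : S_ETA)
    (P : Par ℝ) (hL : 0 < P.L) (hm : ∀ k, 0 < P.m k) (hmL : ∀ k, P.m k ≠ P.L)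
    (hem : ∀ k, k ≤ 4 → P.e k ≠ P.m (k + 1)) (F : ℕ → Subfield ℂ)
    (hFx : ∀ j, j ≤ 5 → Exc (F j) P.cx j) : ∀ n : ℕ, n ≤ 5 → ∀ w : PowerSeries ℝ,
      ((PowerSeries.coeff 1 w : ℝ) : ℂ) ∈ F 5 →
      (PowerSeries.constantCoeff w = 0 →
        Ord (Nat.fib (n + 1)) (G n P.ps w (1 + PowerSeries.X))) ∧
      (PowerSeries.constantCoeff w = 1 →
        Ord (Nat.fib n) (G n P.ps w (1 + PowerSeries.X))) := by
  have hND : ND P.cx := by
    refine ⟨?_, fun k => ?_, fun k => ?_⟩
    · exact Complex.ofReal_ne_zero.2 hL.ne'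
    · exact Complex.ofReal_ne_zero.2 (hm k).ne'
    · intro h
      exact hmL k (Complex.ofReal_injective h)
  obtain ⟨-, F1, F2, F3, F4⟩ := hFx 5 le_rfl
  have FL : ((P.L : ℝ) : ℂ) ∈ F 5 := F1
  have Fm : ∀ k, ((P.m k : ℝ) : ℂ) ∈ F 5 := F2
  have Fe : ∀ k, k ≤ 4 → ((P.e k : ℝ) : ℂ) ∈ F 5 := fun k hk => F3 k (by omega) (by omega)
  have Fe5 : ((P.e 5 : ℝ) : ℂ) ∉ F 5 := F4
  intro n
  induction n with
  | zero =>
    intro _ w hw
    have hG : G 0 P.ps w (1 + PowerSeries.X) =
        (w + (1 + PowerSeries.X) - 1) * (PowerSeries.C (P.m 0) * w +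
          PowerSeries.C (P.m 5) * (1 + PowerSeries.X) -
            PowerSeries.C P.L * w * (1 + PowerSeries.X)) -
          PowerSeries.C (P.e 5) * w * (1 + PowerSeries.X) := rfl
    refine ⟨fun hc => ?_, fun hc => ?_⟩
    · obtain ⟨g, rfl⟩ := PowerSeries.X_dvd_iff.2 hc
      have hg : PowerSeries.coeff 1 (PowerSeries.X * g) = PowerSeries.constantCoeff g := by
        have h2 := PowerSeries.coeff_succ_X_mul 0 g
        rw [zero_add] at h2
        rw [h2, PowerSeries.coeff_zero_eq_constantCoeff_apply]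
      rw [hg] at hw
      set a := PowerSeries.constantCoeff g with ha
      have hG2 : G 0 P.ps (PowerSeries.X * g) (1 + PowerSeries.X) = PowerSeries.X *
          ((g + 1) * (PowerSeries.C (P.m 0) * (PowerSeries.X * g) +
          PowerSeries.C (P.m 5) * (1 + PowerSeries.X) -
            PowerSeries.C P.L * (PowerSeries.X * g) * (1 + PowerSeries.X)) -
          PowerSeries.C (P.e 5) * g * (1 + PowerSeries.X)) := by
        rw [hG]; ring
      have hne : (a + 1) * P.m 5 - P.e 5 * a ≠ 0 := by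
        intro h
        by_cases ha0 : a = 0
        · rw [ha0] at h
          have := (hm 5).ne'
          apply this
          linarith
        · apply Fe5
          have h3 : P.e 5 = (a + 1) * P.m 5 / a := by
            field_simp
            linarith
          rw [h3]
          push_cast
          exact (F 5).div_mem ((F 5).mul_mem ((F 5).add_mem hw (F 5).one_mem) (Fm 5)) hw
      rw [hG2]
      refine ord_X ?_
      simp only [map_sub, map_mul, map_add, map_one, PowerSeries.constantCoeff_X,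
        PowerSeries.constantCoeff_C]
      rw [← ha]
      intro h
      apply hne
      linarith
    · apply ord_unit
      rw [hG]
      simp only [map_sub, map_mul, map_add, map_one, PowerSeries.constantCoeff_X,
        PowerSeries.constantCoeff_C, hc]
      intro h
      apply Fe5
      have h3 : P.e 5 = P.m 0 + P.m 5 - P.L := by linarith
      rw [h3]
      push_cast
      exact (F 5).sub_mem ((F 5).add_mem (Fm 0) (Fm 5)) FL
  | succ n ih =>
    intro hn w hw
    have hn4 : n ≤ 4 := by omega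
    have ih' := ih (by omega)
    refine ⟨fun hc => ?_, fun hc => ?_⟩
    · obtain ⟨a, r0, r1, ha, hfac, e0, e1, -, e2, e3⟩ := h0 P.L (P.m (4 - n)) (P.m (5 - n))
        (P.e (4 - n)) w (hm _).ne' (by
          rw [PowerSeries.coeff_zero_eq_constantCoeff_apply]; exact hc)
      have hG := hF n (PowerSeries ℝ) P.ps a r0 r1 w (1 + PowerSeries.X) hfac
      rw [hG]
      have m0 : ((PowerSeries.coeff 1 r0 : ℝ) : ℂ) ∈ F 5 := by
        rw [e1]
        push_cast
        exact (F 5).mul_mem ((F 5).neg_mem ((F 5).div_mem (Fm _) (Fm _))) hw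
      have m1 : ((PowerSeries.coeff 1 r1 : ℝ) : ℂ) ∈ F 5 := by
        rw [e3]
        push_cast
        exact (F 5).mul_mem ((F 5).sub_mem ((F 5).div_mem (Fe _ (by omega)) (Fm _))
          (F 5).one_mem) hw
      rw [PowerSeries.coeff_zero_eq_constantCoeff_apply] at e0 e2
      have q0 := (ih' r0 m0).1 e0
      have q1 := (ih' r1 m1).2 e2
      have q2 := ord_mul (ord_pow ha (2 ^ (n + 1))) (ord_mul q0 q1)
      have h3 : Nat.fib (n + 1 + 1) = 0 + (Nat.fib (n + 1) + Nat.fib n) := by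
        rw [Nat.fib_add_two]; omega
      rw [h3]
      exact q2
    · obtain ⟨a, r0, r1, ha, hfac, e0, e1, e2⟩ := h1 P.L (P.m (4 - n)) (P.m (5 - n))
        (P.e (4 - n)) w (hmL _) (by
          have h3 := hem (4 - n) (by omega)
          have h4 : 4 - n + 1 = 5 - n := by omega
          rw [h4] at h3
          exact h3) (by
          rw [PowerSeries.coeff_zero_eq_constantCoeff_apply]; exact hc)
      have hG := hF n (PowerSeries ℝ) P.ps a r0 r1 w (1 + PowerSeries.X) hfac
      rw [hG]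
      have m0 : ((PowerSeries.coeff 1 r0 : ℝ) : ℂ) ∈ F 5 := by
        rw [e1]
        push_cast
        exact (F 5).mul_mem ((F 5).div_mem (Fm _) ((F 5).sub_mem (Fe _ (by omega)) (Fm _))) hw
      rw [PowerSeries.coeff_zero_eq_constantCoeff_apply] at e0 e2
      have q0 := (ih' r0 m0).1 e0
      have q1 : Ord 0 (G n P.ps r1 (1 + PowerSeries.X)) := by
        apply ord_unit
        rw [cst hN]
        simp only [map_add, map_one, PowerSeries.constantCoeff_X, add_zero]
        intro h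
        have h3 := cxG hN n P (PowerSeries.constantCoeff r1) 1
        rw [h, e2] at h3
        push_cast at h3
        exact hE F P.cx hND hFx n 1 hn4 (Or.inr rfl) h3.symm
      have q2 := ord_mul (ord_pow ha (2 ^ (n + 1))) (ord_mul q0 q1)
      have h3 : Nat.fib (n + 1) = 0 + (Nat.fib (n + 1) + 0) := by omega
      rw [h3]
      exact q2

theorem t_ORDA (hN : S_NAT) (hF : S_FAC) (h0 : S_STEP0) (h1 : S_STEP1) (hE : S_ETA) :
    S_ORDA := by
  rintro P ⟨hL, hm, hmL, -, hem, F, hFx⟩
  have h := (claim hN hF h0 h1 hE P hL hm hmL hem F hFx 5 le_rfl (1 + PowerSeries.X) (by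
    rw [map_add, PowerSeries.coeff_one_X]
    have h2 : PowerSeries.coeff 1 (1 : PowerSeries ℝ) = 0 := by
      rw [PowerSeries.coeff_one]
      simp
    rw [h2, zero_add]
    push_cast
    exact (F 5).one_mem)).2 (by simp)
  have h3 : Nat.fib 5 = 5 := by decide
  rw [h3] at h
  exact h

end Pool.Agent.W412.LM
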